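import Pool.Agent.H60.CM.Basic

/-!
# Stable surfaces of constant mean curvature spanning a circle: functions cut off on a half
-/

set_option autoImplicit false

open Set Function MeasureTheory Filter Topology
open scoped Manifold ContDiff Matrix
open Pool.Agent.H60.CM

namespace Pool.Agent.H52.CM

/-- the closure of a half consists of the half and of fixed points -/
theorem closure_half (Y : Sy) {p : Y.S} (hp : p ∈ closure Y.A) : p ∈ Y.A ∨ Y.τ p = p := by
  by_contra hcon
  push Not at hcon
  obtain ⟨h1, h2⟩ := hcon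
  rcases (Y.half.cover p).1 h2 with h | h
  · exact h1 h
  · have hB : IsOpen (Y.τ ⁻¹' Y.A) := Y.half.isOpen.preimage Y.τ.continuous
    obtain ⟨q, hq1, hq2⟩ := mem_closure_iff.1 hp _ hB h
    exact Set.disjoint_left.1 Y.half.disj hq2 hq1

/-- (CUT) functions cut off on a half are smooth. -/
theorem pf_CUT : T_CUT := by
  intro Y f hf hbd hfix φ ε hφ hε hz
  have hfc : Continuous f := Dat.Sm.cont Y.toDat hf
  have hAo : IsOpen Y.A := Y.half.isOpen
  set E : Set Y.S := closure Y.A ∩ {p | ε ≤ f p} with hE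
  have hEc : IsClosed E := isClosed_closure.inter (isClosed_le continuous_const hfc)
  have hEA : E ⊆ Y.A ∩ Y.int := by
    rintro p ⟨h1, h2⟩
    have h2' : ε ≤ f p := h2
    have hA : p ∈ Y.A := by
      rcases closure_half Y h1 with h | h
      · exact h
      · have := hfix p h
        linarith
    refine ⟨hA, ?_⟩
    by_contra h
    have h3 : p ∈ Y.bd := (Dat.not_int Y.toDat).1 h
    have := hbd p ⟨hA, h3⟩
    linarith
  have hzero : ∀ q, q ∉ E → Y.A.indicator (fun p => φ (f p)) q = 0 := by
    intro q hq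
    by_cases hqA : q ∈ Y.A
    · rw [indicator_of_mem hqA]
      apply hz
      by_contra hlt
      push Not at hlt
      exact hq ⟨subset_closure hqA, hlt.le⟩
    · exact indicator_of_notMem hqA _
  have hsupp : tsupport (Y.A.indicator fun p => φ (f p)) ⊆ E := by
    apply closure_minimal _ hEc
    intro q hq
    by_contra h
    exact hq (hzero q h)
  refine ⟨?_, hsupp.trans hEA⟩
  intro p
  by_cases hpE : p ∈ E
  · have hpA : p ∈ Y.A := (hEA hpE).1
    have h1 : ContMDiffAt (𝓡∂ 2) 𝓘(ℝ, ℝ) ∞ (fun q => φ (f q)) p :=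
      (Dat.Sm.comp_left Y.toDat hf hφ) p
    refine h1.congr_of_eventuallyEq ?_
    filter_upwards [hAo.mem_nhds hpA] with q hq
    rw [indicator_of_mem hq]
  · have h1 : ContMDiffAt (𝓡∂ 2) 𝓘(ℝ, ℝ) ∞ (fun _ : Y.S => (0 : ℝ)) p := contMDiffAt_const
    refine h1.congr_of_eventuallyEq ?_
    filter_upwards [hEc.isOpen_compl.mem_nhds hpE] with q hq
    exact hzero q hq

end Pool.Agent.H52.CM
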